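import Pool.Agent.Helper79.GU.St1
import Pool.Agent.Helper79.GT.St6

set_option autoImplicit false

namespace Pool.Agent.Helper38.GU

open Pool.Agent.Helper19.SK Pool.Agent.Helper73.DC Pool.Agent.Helper79.GS
  Pool.Agent.Helper79.GT Pool.Agent.Helper79.GU Finset
open scoped Classical

private theorem exp_bn (c : Bool) : 1 - bn c = bn (!c) := by
  cases c <;> rfl

private theorem exp_dcl (hSFN : Pool.Agent.Helper79.GU.StSFN) (hFLE : Pool.Agent.Helper79.GU.StFLE)
    (hWRE : Pool.Agent.Helper79.GU.StWRE) (n m kb kw : ℕ) (c₀ : Bool) (P₀ : Pos (Fin n × Fin n))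
    (H : List (Bool × Pos (Fin n × Fin n))) (hn : 1 ≤ n) (i c : Bool)
    (P Q : Pos (Fin n × Fin n)) :
    dcl DE (inst n m kb kw c₀ P₀ H) i c P Q ↔ Dec (goG (grid n) false) i c P Q := by
  obtain ⟨h1, h2, h3⟩ := hWRE n m kb kw c₀ P₀ H c P Q hn
  unfold dcl
  set W := inst n m kb kw c₀ P₀ H ++ ltr (some c) :: (bword P ++ bword Q) with hW
  have hN : 3 ^ (n * n) ≤ NN 8 W := by
    have := (hFLE W).2.1
    rwa [h1] at this
  have h4 := h3 _ hN
  cases i with
  | true =>
    have hs := (hSFN (NN 8 W) n hN c Q).1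
    simp only [DE, Set.mem_ofPred_eq, if_true, h1, h2, h4, Dec, true_and, hs]
    simp
  | false =>
    have hs := (hSFN (NN 8 W) n hN (!c) Q).2
    simp only [DE, Set.mem_ofPred_eq, h1, h2, h4, Dec, exp_bn, true_and, hs]
    simp

theorem hEXP (hMAI : Pool.Agent.Helper79.GT.StMAI) (hSND : Pool.Agent.Helper79.GU.StSND)
    (hFLE : Pool.Agent.Helper79.GU.StFLE) (hSFN : Pool.Agent.Helper79.GU.StSFN)
    (hPSE : Pool.Agent.Helper79.GU.StPSE) (hWRE : Pool.Agent.Helper79.GU.StWRE) :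
    Pool.Agent.Helper79.GU.StEXP := by
  intro sk
  obtain ⟨L, hL, hmain⟩ := hMAI sk false DE hPSE
  refine ⟨L, hL, fun n m kb kw c P H hn hFew hs0 hsH => ?_⟩
  have hD : (dcl DE (inst n m kb kw c P H) : Bool → Bool → Pos (Fin n × Fin n) →
      Pos (Fin n × Fin n) → Prop) = Dec (goG (grid n) false) := by
    funext i c' P' Q'
    exact propext (exp_dcl hSFN hFLE hWRE n m kb kw c P H hn i c' P' Q')
  have h := hmain n m kb kw c P H hn
  rw [hD] at h
  exact h hFew (hSND _ _ sk _ c P _ hs0 hsH)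

end Pool.Agent.Helper38.GU
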