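import Pool.Agent.Helper96.GU.St

/-!
Project GU, module FLA: assembly for two generators.
-/

set_option autoImplicit false

namespace Pool.Agent.Helper38.GU

open Pool.Agent.Helper96.UT hiding StTOP TopV TopE tht Bd VC EC
open Pool.Agent.Helper96.GU

private theorem finW_FLA {α Ω : Type} [MulAction (FreeGroup α) Ω] (Z : Cyc α)
    (E : Set (Ω × α)) (C : Finset Ω) (v : Ω) {w : FreeGroup α} (hw : w ∈ Nc Z E C v) :
    ∃ W : Finset (List (α × Bool)), (∀ p ∈ W, act v (FreeGroup.mk p) ∈ C) ∧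
      w ∈ Subgroup.closure {x : FreeGroup α | ∃ p ∈ W,
        x = FreeGroup.mk p * Z.s * (FreeGroup.mk p)⁻¹} := by
  classical
  unfold Nc at hw
  induction hw using Subgroup.closure_induction with
  | mem y hy =>
    obtain ⟨p, _, h2, h3⟩ := hy
    refine ⟨{p}, ?_, ?_⟩
    · intro p' hp'
      rw [Finset.mem_singleton] at hp'
      rw [hp']
      exact h2
    · exact Subgroup.subset_closure ⟨p, Finset.mem_singleton_self p, h3⟩
  | one => exact ⟨∅, by simp, Subgroup.one_mem _⟩
  | mul a b _ _ ha hb =>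
    obtain ⟨W1, h1, h2⟩ := ha
    obtain ⟨W2, h3, h4⟩ := hb
    refine ⟨W1 ∪ W2, ?_, ?_⟩
    · intro p hp
      rcases Finset.mem_union.1 hp with h | h
      · exact h1 p h
      · exact h3 p h
    · refine Subgroup.mul_mem _ (Subgroup.closure_mono ?_ h2) (Subgroup.closure_mono ?_ h4)
      · rintro x ⟨p, hp, rfl⟩
        exact ⟨p, Finset.mem_union_left _ hp, rfl⟩
      · rintro x ⟨p, hp, rfl⟩
        exact ⟨p, Finset.mem_union_right _ hp, rfl⟩
  | inv a _ ha =>
    obtain ⟨W1, h1, h2⟩ := ha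
    exact ⟨W1, h1, Subgroup.inv_mem _ h2⟩

private theorem map_FLA {α Ω : Type} [MulAction (FreeGroup α) Ω] (L : Subgroup (FreeGroup α))
    (v : Ω) (hv : ∀ h ∈ L, act v h = v) :
    ∃ f : FreeGroup α ⧸ L → Ω, (∀ (x : FreeGroup α ⧸ L) (g : FreeGroup α),
      f (act x g) = act (f x) g) ∧ f ((1 : FreeGroup α) : FreeGroup α ⧸ L) = v := by
  have hmk : ∀ g : FreeGroup α, ((g : FreeGroup α ⧸ L)).out • v = g • v := by
    intro g
    obtain ⟨h, hh⟩ := QuotientGroup.mk_out_eq_mul L g
    rw [hh, mul_smul]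
    congr 1
    have := hv (h : FreeGroup α)⁻¹ (L.inv_mem h.2)
    rw [inv_act, inv_inv] at this
    exact this
  refine ⟨fun x => x.out • v, ?_, ?_⟩
  · intro x g
    obtain ⟨a, rfl⟩ := QuotientGroup.mk_surjective x
    have e : act ((a : FreeGroup α ⧸ L)) g = ((g⁻¹ * a : FreeGroup α) : FreeGroup α ⧸ L) := rfl
    rw [e]
    dsimp only
    rw [hmk, hmk, mul_smul, inv_act]
  · dsimp only
    rw [hmk, one_smul]

theorem tFLA : Pool.Agent.Helper96.UT.StSTK → StMIN → StCYK → StLV0 → StDUA → StTOW → StFLA := by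
  intro hS hM hC hL hD hT α Z L h₁ h₂ hgen hs hG
  obtain ⟨η⟩ := hS α Z
  by_cases hcase : ∃ w ∈ L, w ∈ Subgroup.normalClosure ({Z.s} : Set (FreeGroup α)) ∧
      ∃ (Ω : Type) (_ : MulAction (FreeGroup α) Ω) (v : Ω) (E : Set (Ω × α)) (C : Finset Ω),
        Ini Z L w v E C ∧ ∃ k : ℤ, Sg Z C v k
  · right
    obtain ⟨w, hw, hwn, Ω, inst, v, E, C, hI, k, hk⟩ := hcase
    exact hC α Z L h₁ h₂ hgen hs Ω v hI.stab k (fun k' h => (hk v hI.mem k' h).1)
  · left
    intro w hw hwn
    obtain ⟨Ω, inst, v, E, C, hI, hor⟩ := hM α Z η L hs hG w hw hwn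
    rcases hor with ⟨k, hk⟩ | hcard
    · exact absurd ⟨w, hw, hwn, Ω, inst, v, E, C, hI, k, hk⟩ hcase
    · obtain ⟨W, hW1, hW2⟩ := finW_FLA Z E C v hI.nc
      have hΘ : ∀ g : FreeGroup α, act ((1 : FreeGroup α) : FreeGroup α ⧸ L) g =
          ((1 : FreeGroup α) : FreeGroup α ⧸ L) ↔ g ∈ L := by
        intro g
        have := act_coset_eq_EXZ L g 1
        rw [act_one, inv_one, mul_one] at this
        exact this
      obtain ⟨f, hf, hfo⟩ := map_FLA L v hI.stab
      have hR := hL α Z η L h₁ h₂ hgen hs Ω v E C w hI hcard (FreeGroup α ⧸ L)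
        ((1 : FreeGroup α) : FreeGroup α ⧸ L) hΘ f hf hfo
      have hR2 := (hD α Z Ω (FreeGroup α ⧸ L) _ _ _).2 hR
      have hTw : Tw Z ((1 : FreeGroup α) : FreeGroup α ⧸ L) W v
          {x : Ω × (FreeGroup α ⧸ L) | x.1 = f x.2} {p : Ω | p ∈ C ∧ p ≠ v} := by
        refine ⟨?_, ?_, ?_, ?_, hR2⟩
        · intro x hx g
          have hx' : x.1 = f x.2 := hx
          change (act x g).1 = f (act x g).2
          rw [act_prod]
          dsimp only
          rw [hf, hx']
        · change v = f _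
          exact hfo.symm
        · intro p hp
          exact hI.cpx.fix _ (hW1 p hp)
        · intro p hp
          by_cases h : act v (FreeGroup.mk p) = v
          · left
            change act v (FreeGroup.mk p) = f _
            rw [hfo]
            exact h
          · right
            exact ⟨hW1 p hp, h⟩
      obtain ⟨q, hq, hqw⟩ := hG w hw
      have hE := InG_InE (Z := Z) (v := ((1 : FreeGroup α) : FreeGroup α ⧸ L))
        (fun h hh => (hΘ h).2 hh) hq
      rw [act_one] at hE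
      have := hT α Z L hs (FreeGroup α ⧸ L) _ hΘ W q hE (by rw [hqw]; exact hw)
        (by rw [hqw]; exact hW2) Ω v _ _ hTw
      rw [hqw] at this
      exact this

end Pool.Agent.Helper38.GU
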